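import Pool.Agent.P.MP_c12967_pr.Sym
import Pool.Agent.P.MP_c12967_pr.Sym2

/-!
Two different stationary 1-dependent 4-colourings of the integers, both invariant in law under
every permutation of the colours and under reflection.
-/

set_option autoImplicit false
open MeasureTheory ProbabilityTheory

namespace Pool.Agent.Results.MP_c12967_pr.SymmetricNonUnique

/-- The sigma-algebra generated by the colours of the sites in `A`. -/
def sites (A : Set ℤ) : MeasurableSpace (ℤ → Fin 4) :=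
  ⨆ a ∈ A, MeasurableSpace.comap (fun x : ℤ → Fin 4 => x a) (⊤ : MeasurableSpace (Fin 4))

/-- The law of a stationary 1-dependent proper 4-colouring of the integers that is invariant
under all permutations of the colours and under reflection. -/
structure SymColouring (μ : Measure (ℤ → Fin 4)) : Prop where
  prob : IsProbabilityMeasure μ
  stationary : Measure.map (fun x : ℤ → Fin 4 => fun n : ℤ => x (n + 1)) μ = μ
  proper : ∀ᵐ x ∂μ, ∀ n : ℤ, x n ≠ x (n + 1)
  oneDep : ∀ A B : Set ℤ, (∀ a ∈ A, ∀ b ∈ B, 1 < |a - b|) → Indep (sites A) (sites B) μ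
  perm : ∀ σ : Equiv.Perm (Fin 4), Measure.map (fun x : ℤ → Fin 4 => fun n : ℤ => σ (x n)) μ = μ
  refl : Measure.map (fun x : ℤ → Fin 4 => fun n : ℤ => x (-n)) μ = μ

open Pool.Agent.P.MP_c12967_pr in
theorem result : ∃ μ ν : Measure (ℤ → Fin 4), SymColouring μ ∧ SymColouring ν ∧ μ ≠ ν ∧
    (μ {x | x 0 = 0 ∧ x 1 = 1 ∧ x 2 = 0 ∧ x 3 = 1}).toReal = 131 / 31104 ∧
    (ν {x | x 0 = 0 ∧ x 1 = 1 ∧ x 2 = 0 ∧ x 3 = 1}).toReal = 1 / 240 := by
  have p0 : Pnew [] = 1 := rfl
  have p1 : ∀ x, 0 ≤ Pnew x := by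
    intro x
    rcases x with _ | ⟨c, x⟩
    · exact zero_le_one
    · exact div_nonneg (ev_nonneg x lam c Good_lam) (by positivity)
  have p2 : ∀ x y, ∑ a, Pnew (x ++ a :: y) = Pnew x * Pnew y := by
    intro x y
    rcases x with _ | ⟨c, x⟩ <;> rcases y with _ | ⟨q, y⟩
    · simp [Pnew, ev, St.w, lam]; norm_num
    · simp only [List.nil_append, Pnew, ev, List.length_cons, ← Finset.sum_div, sum_lam]
      ring
    · simp only [List.cons_append, Pnew, List.length_append, List.length_cons, List.length_nil,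
        ← Finset.sum_div, ev_last]
      ring
    · simp only [List.cons_append, Pnew, List.length_append, List.length_cons,
        ← Finset.sum_div, ev_mid]
      ring
  have p3 : ∀ a, Pnew [a, a] = 0 := fun a => by simp only [Pnew, ev_rep0, zero_div]
  have p4 : Pnew [0, 1, 0, 1] = 131 / 31104 := by
    simp [Pnew, ev, Tc, T0, St.w, lam]; norm_num
  obtain ⟨μ, m0, m1, m2, m3, m4, m5, m6⟩ :=
    Sym2.exists_sym Pnew p0 p1 p2 p3 Sym.Pnew_perm Sym.Pnew_rev
  obtain ⟨ν, n0, n1, n2, n3, n4, n5, n6⟩ :=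
    Sym2.exists_sym HL.Q HL.Q_nil (fun _ => HL.H_nonneg _ _) (fun x y => HL.Q_sum _ x y rfl)
      (fun a => HL.Q_rep [] [] a) Sym2.Q_map Sym2.Q_rev
  have e1 : (μ {x | x 0 = 0 ∧ x 1 = 1 ∧ x 2 = 0 ∧ x 3 = 1}).toReal = 131 / 31104 := by
    rw [m6, p4, ENNReal.toReal_ofReal (by norm_num)]
  have e2 : (ν {x | x 0 = 0 ∧ x 1 = 1 ∧ x 2 = 0 ∧ x 3 = 1}).toReal = 1 / 240 := by
    rw [n6, HL.Q_val, ENNReal.toReal_ofReal (by norm_num)]
  refine ⟨μ, ν, ⟨m0, m1, m2, m3, m4, m5⟩, ⟨n0, n1, n2, n3, n4, n5⟩, fun h => ?_, e1, e2⟩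
  rw [h, e2] at e1
  norm_num at e1

end Pool.Agent.Results.MP_c12967_pr.SymmetricNonUnique
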